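import Pool.Agent.H7.LP.Targets

/-!
# Row TRA: the transfer
-/

set_option autoImplicit false

open Set Filter Topology

namespace Pool.Agent.H50.LP

open Pool.Agent.H93.CP (CMO PMO NonArch)
open Pool.Agent.H7.LP

/-- the trivial action of the trivial group -/
@[reducible] private def triv (Z : Type) : MulAction Unit Z where
  smul _ z := z
  one_smul _ := rfl
  mul_smul _ _ _ := rfl

private theorem triv_smul (Z : Type) (g : Unit) (z : Z) :
    (triv Z).smul g z = z := rfl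

private theorem triv_meas (Z : Type) [MeasurableSpace Z] :
    @MeasurableSMul₂ Unit Z (triv Z).toSMul _ _ :=
  @MeasurableSMul₂.mk Unit Z (triv Z).toSMul _ _ measurable_snd

private theorem nonArch_unit : NonArch Unit := by
  intro U hU
  refine ⟨⊥, isOpen_discrete _, ?_⟩
  intro x _
  exact mem_of_mem_nhds hU

theorem pf_TRA (h1 : T_HIT) (h2 : T_REP) (h3 : T_SYS) (h4 : T_COD) (h5 : T_SEL) (h6 : T_PGT)
    (h7 : T_PNC) (h8 : T_ORB) (h9 : T_ISO) : T_TRA := by
  classical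
  intro G X _ _ _ _ _ _ _ _ L M _ _ hM
  rcases isEmpty_or_nonempty X with hX | hX
  · refine ⟨Unit, inferInstance, inferInstance, inferInstance, inferInstance, inferInstance,
      inferInstance, Empty, inferInstance, inferInstance, triv Empty, triv_meas Empty,
      nonArch_unit, ?_, ?_⟩
    · refine ⟨fun _ => ⟨∅, countable_empty, fun x => hX.elim x⟩,
        fun _ => ⟨∅, countable_empty, fun x => x.elim⟩⟩
    · refine ⟨fun ⟨f, _⟩ => (f fun _ => true).elim, fun ⟨f, _⟩ => hX.elim (f fun _ => true)⟩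
  by_cases hP : PMO M X
  · have hPU : @PMO Unit (ℕ → Bool) _ (triv _) _ := ⟨id, measurable_id, fun u v huv _ h => huv h⟩
    refine ⟨Unit, inferInstance, inferInstance, inferInstance, inferInstance, inferInstance,
      inferInstance, ℕ → Bool, inferInstance, inferInstance, triv _, triv_meas _,
      nonArch_unit, ?_, ?_⟩
    · refine ⟨fun h => absurd h ?_, fun h => absurd h (h7 M X hP)⟩
      exact @h7 Unit (ℕ → Bool) _ (triv _) _ hPU
    · exact ⟨fun _ => hP, fun _ => hPU⟩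
  · obtain ⟨Y⟩ := h1 G X M hM
    obtain ⟨R⟩ := h2 G X L M Y hP
    obtain ⟨S⟩ := h3 G X L M Y R
    obtain ⟨hW, f, hf, hfW⟩ := h5 G X L M Y S hM
    have hWI : ∀ w w', w ∈ S.W → Iso w w' → w' ∈ S.W := by
      rintro w w' ⟨x, e, hc, hs⟩ hi
      obtain ⟨e', hc', hs'⟩ := h9 G X L M Y S x e w w' hc hs hi
      exact ⟨x, e', hc', hs'⟩
    obtain ⟨P, i1, i2, i3, i4, i5, i6, i7, i8, hN, hO⟩ := h6 S.W hW hWI
    have hst : StandardBorelSpace S.W := hW.standardBorel
    -- a structure for every point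
    have hex : ∀ x : X, ∃ w : S.W, ∃ e, S.IsCode x e ∧ S.IsStr x e w.1 := by
      intro x
      obtain ⟨⟨e, he⟩, hs⟩ := h4 G X L M Y S x
      obtain ⟨w, hw⟩ := hs e
      exact ⟨⟨w, x, e, he, hw⟩, e, he, hw⟩
    choose s es hs1 hs2 using hex
    have hPP : PMO P S.W → PMO M X := by
      rintro ⟨φ, hφ, hφ'⟩
      refine ⟨fun u => f (φ u).1, hf.comp (measurable_subtype_coe.comp hφ), ?_⟩
      intro u v huv m hm
      obtain ⟨e, he, he'⟩ := hfW (φ u).1 (φ u).2
      obtain ⟨e₂, he₂, he₂'⟩ := hfW (φ v).1 (φ v).2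
      have h10 := (h8 G X L M Y S _ _ e e₂ _ _ he he' he₂ he₂').2 ⟨m, hm⟩
      obtain ⟨g, hg⟩ := (hO (φ u) (φ v)).2 h10
      exact hφ' u v huv g hg
    refine ⟨P, i1, i2, i3, i4, i5, i6, S.W, inferInstance, hst, i7, i8, hN, ⟨?_, ?_⟩,
      ⟨hPP, fun h => absurd h hP⟩⟩
    · rintro ⟨A, hA, hAx⟩
      refine ⟨(fun a : S.W => f a.1) '' A, hA.image _, fun x => ?_⟩
      obtain ⟨g, hg⟩ := hAx (s x)
      have h10 := (hO (s x) (g • s x)).1 ⟨g, rfl⟩
      obtain ⟨e, he, he'⟩ := hfW (g • s x).1 (g • s x).2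
      obtain ⟨m, hm⟩ := (h8 G X L M Y S _ _ _ e _ _ (hs1 x) (hs2 x) he he').1 h10
      exact ⟨m, g • s x, hg, hm.symm⟩
    · rintro ⟨A, hA, hAx⟩
      refine ⟨s '' A, hA.image _, fun w => ?_⟩
      obtain ⟨x, e, hc, hst'⟩ := w.2
      obtain ⟨m, hm⟩ := hAx x
      have h10 := (h8 G X L M Y S x (m • x) e _ w.1 _ hc hst' (hs1 (m • x)) (hs2 (m • x))).2
        ⟨m, rfl⟩
      obtain ⟨g, hg⟩ := (hO w (s (m • x))).2 h10
      refine ⟨g, ?_⟩
      rw [hg]
      exact ⟨m • x, hm, rfl⟩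

end Pool.Agent.H50.LP
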